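import Pool.Agent.W543.GE.Stm

/-! Project GE (MP_54c2ef_al): part FINNIL, the stripping operators are locally nilpotent. -/

set_option autoImplicit false

universe u

namespace Pool.Agent.W300.GE

open Pool.Agent.W543.GE

section

variable {K : Type u} [Field K] {M : Type u} [AddCommGroup M] [Module K M] {F : Type u} [Field F]
  [Algebra K F] {n : ℕ}

/-- precomposition -/
noncomputable def pre (D : M →ₗ[K] M) : Module.End F (M →ₗ[K] F) where
  toFun l := l ∘ₗ D
  map_add' _ _ := rfl
  map_smul' _ _ := rfl

theorem pre_apply (D : M →ₗ[K] M) (l : M →ₗ[K] F) : (pre D : Module.End F (M →ₗ[K] F)) l = l ∘ₗ D :=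
  rfl

theorem prod_pre (D : Fin n → (M →ₗ[K] M)) (w : List (Fin n)) (l : M →ₗ[K] F) :
    ((w.map (fun j => (pre (D j) : Module.End F (M →ₗ[K] F)))).prod) l =
      l ∘ₗ ((w.reverse.map D).prod : Module.End K M) := by
  induction w with
  | nil => rfl
  | cons j w ih =>
    rw [List.map_cons, List.prod_cons, Module.End.mul_apply, ih, pre_apply, List.reverse_cons,
      List.map_append, List.prod_append, List.map_cons, List.map_nil, List.prod_singleton]
    rfl

theorem eq_zero_of_functionals (v : M) (h : ∀ l : M →ₗ[K] F, l v = 0) : v = 0 := by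
  rw [← Module.forall_dual_apply_eq_zero_iff K v]
  intro f
  have h1 := h ((Algebra.linearMap K F) ∘ₗ f)
  rw [LinearMap.comp_apply, Algebra.linearMap_apply] at h1
  exact (map_eq_zero _).1 h1

end

theorem t_FINNIL (h1 : INJD_stmt.{u}) (h2 : LOCFIN_stmt.{u}) (h3 : NIL_stmt.{u}) :
    FINNIL_stmt.{u} := by
  intro K _ n φ D nab heps hst honto a
  obtain ⟨V, hfin, haV, hV⟩ := h2 K n φ D nab heps hst a
  let F := AlgebraicClosure K
  let Dr : Fin n → (V →ₗ[K] V) := fun j => (D j).restrict (fun v hv => hV j v hv)
  have hDr : ∀ j (v : V), ((Dr j v : V) : A K n) = D j v := fun j v => rfl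
  have hprod : ∀ (w : List (Fin n)) (v : V),
      ((((w.map Dr).prod : Module.End K V) v : V) : A K n) = (w.map D).prod (v : A K n) := by
    intro w
    induction w with
    | nil => intro v; rfl
    | cons j w ih =>
      intro v
      rw [List.map_cons, List.prod_cons, List.map_cons, List.prod_cons, Module.End.mul_apply,
        Module.End.mul_apply, hDr, ih]
  have hnil := h3 F (V →ₗ[K] F) n (fun j => pre (Dr j)) (by
    intro N Z s hs
    obtain ⟨X, hX⟩ := honto F N (fun j => (Z j).transpose)
    have h0 := h1 K n φ D nab hst V hfin hV F N X (LinearMap.pi s) (by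
      intro v w hw
      have hw' : ∀ j, w j = Dr j v := fun j => Subtype.ext (hw j)
      funext a
      rw [LinearMap.pi_apply, hs a]
      simp only [LinearMap.sum_apply, LinearMap.smul_apply, pre_apply, LinearMap.comp_apply,
        Finset.sum_apply, Matrix.vecMul, dotProduct, hX, Matrix.transpose_apply, hw',
        LinearMap.pi_apply, smul_eq_mul]
      refine Finset.sum_congr rfl fun j _ => Finset.sum_congr rfl fun b _ => mul_comm _ _)
    funext a
    apply LinearMap.ext
    intro v
    have := congrFun (LinearMap.congr_fun h0 v) a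
    simpa using this)
  obtain ⟨k, hk⟩ := hnil
  refine ⟨k, fun w hw => ?_⟩
  have hz : (((w.map Dr).prod : Module.End K V) ⟨a, haV⟩ : V) = 0 := by
    apply eq_zero_of_functionals (K := K) (F := F)
    intro l
    have h4 := prod_pre (F := F) Dr w.reverse l
    rw [hk w.reverse (by rw [List.length_reverse]; exact hw), List.reverse_reverse] at h4
    have h5 := LinearMap.congr_fun h4 ⟨a, haV⟩
    exact h5.symm
  have := hprod w ⟨a, haV⟩
  rw [hz] at this
  exact this.symm

end Pool.Agent.W300.GE
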